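import Pool.Agent.Q98.LA.Multi
import Pool.Agent.W111.LAR.Top

set_option autoImplicit false

/-!
# Linear arboricity of fibred graphs
-/

namespace Pool.Agent.Q98.LA

open Finset SimpleGraph H931R3.LA Pool.Agent.W111.LAR

open Classical in
/-- The criterion for fibred graphs. -/
theorem cov_fib {V W κ : Type} [Finite V] [Finite W] [Fintype κ] (H : κ → SimpleGraph W)
    (hdeg : ∀ i v, ((H i).neighborSet v).ncard ≤ 2)
    (hload : ∀ v, ∑ i, (if Cyc (H i) v then (2 : ℝ) / csize (H i) v else 0) ≤ 1)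
    (G : SimpleGraph V) (f : V → W)
    (hG : ∀ u j, {v | G.Adj u v ∧ f v = j}.ncard ≤ {i | (H i).Adj (f u) j}.ncard) :
    Cov G (Fintype.card κ + 1) :=
  (mcov_load H hdeg hload).cov G f hG

/-- Graphs fibred over a graph without short cycles. -/
theorem cov_fib_girth {V W : Type} [Finite V] [Finite W] (X : SimpleGraph W) (k m β : ℕ)
    (hm : 1 ≤ m) (hdeg : ∀ v, (X.neighborSet v).ncard ≤ 2 * k)
    (hcyc : ∀ (v : W) (c : X.Walk v v), c.IsCycle → 2 * m ≤ c.length)
    (G : SimpleGraph V) (f : V → W) (hom : ∀ u v, G.Adj u v → X.Adj (f u) (f v))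
    (hβ : ∀ u j, {v | G.Adj u v ∧ f v = j}.ncard ≤ β) :
    Cov G (k * β + (k * β + m - 1) / m) := by
  classical
  obtain ⟨H, hH, hsup⟩ := decomp X k hdeg
  have h1 := mcov_group (fun p : Fin k × Fin β => H p.1) m hm (fun p v => hH p.1 v)
    (fun p v h => by
      obtain ⟨w, c, hc, hlen⟩ := exists_cycle h
      have hle : H p.1 ≤ X := (le_iSup H p.1).trans hsup.le
      have h2 := hcyc w (c.mapLe hle) (hc.mapLe hle)
      rw [Walk.length_mapLe] at h2
      omega) (k * β) univ (by simp)
  refine h1.cov G f fun u j => ?_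
  by_cases hX : X.Adj (f u) j
  · refine (hβ u j).trans ?_
    rw [← hsup, iSup_adj] at hX
    obtain ⟨i, hi⟩ := hX
    have h2 : (fun t : Fin β => ((i, t) : Fin k × Fin β)) '' Set.univ ⊆
        {p | p ∈ (univ : Finset (Fin k × Fin β)) ∧ (H p.1).Adj (f u) j} := by
      rintro _ ⟨t, _, rfl⟩
      exact ⟨mem_univ _, hi⟩
    refine le_trans ?_ (Set.ncard_le_ncard h2 (Set.toFinite _))
    rw [Set.ncard_image_of_injective _ (fun a b h => (Prod.ext_iff.1 h).2), Set.ncard_univ]
    simp
  · have h2 : {v | G.Adj u v ∧ f v = j} = ∅ := by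
      ext v
      simp only [Set.mem_ofPred_eq, Set.mem_empty_iff_false, iff_false]
      rintro ⟨h3, rfl⟩
      exact hX (hom u v h3)
    rw [h2, Set.ncard_empty]
    exact Nat.zero_le _

/-- Graphs whose vertices are labelled by the elements of a finite group. -/
theorem cov_label {Γ V : Type} [Group Γ] [Fintype Γ] [Finite V] (β : Γ → ℕ)
    (hinv : ∀ s, β s⁻¹ = β s) (hno : ∀ s, s * s = 1 → β s = 0)
    (hsum : ∑ s, (β s : ℝ) / orderOf s ≤ 1) (G : SimpleGraph V) (f : V → Γ)
    (hβ : ∀ u s, {v | G.Adj u v ∧ f v = f u * s}.ncard ≤ β s) :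
    Cov G ((∑ s, β s) / 2 + 1) := by
  classical
  obtain ⟨T, hTS, hT, hcard, hf⟩ := halve (univ.filter (fun s => β s ≠ 0))
    (fun s hs => by simpa [hinv] using hs)
    (fun s hs h => (mem_filter.1 hs).2 (hno s h))
  have hT1 : ∀ s ∈ T, s ≠ 1 := by
    intro s hs h
    exact (mem_filter.1 (hTS hs)).2 (hno s (by rw [h]; simp))
  have hnorm : ∀ F : Γ → ℝ, (∀ s, β s = 0 → F s = 0) → ∑ s, F s =
      ∑ s ∈ univ.filter (fun s => β s ≠ 0), F s := by
    intro F hF
    rw [sum_filter]
    refine sum_congr rfl fun s _ => ?_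
    split_ifs with h
    · rfl
    · exact hF s (by simpa using h)
  let κ : Type := Σ s : T, Fin (β s.1)
  have hcardκ : Fintype.card κ = ∑ s ∈ T, β s := by
    rw [Fintype.card_sigma, ← sum_coe_sort T]
    simp
  have htot : (∑ s, β s) = 2 * ∑ s ∈ T, β s := by
    have h1 := hf (fun s => (β s : ℝ)) (fun s => by rw [hinv])
    rw [← hnorm (fun s => (β s : ℝ)) (fun s h => by rw [h]; simp)] at h1
    exact_mod_cast h1
  have h1 := cov_fib (fun i : κ => gen i.1.1 (hT1 _ i.1.2)) (fun i g => gen_deg _ _ g) (by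
      intro g
      refine le_trans ?_ hsum
      rw [hnorm (fun s => (β s : ℝ) / orderOf s) (fun s h => by rw [h]; simp),
        hf (fun s => (β s : ℝ) / orderOf s) (fun s => by rw [orderOf_inv, hinv]), mul_sum,
        ← sum_coe_sort T, Fintype.sum_sigma]
      refine sum_le_sum fun s _ => ?_
      have hpos : (0 : ℝ) < orderOf s.1 := by exact_mod_cast orderOf_pos s.1
      have h3 : ∀ t ∈ (univ : Finset (Fin (β s.1))),
          (if Cyc (gen s.1 (hT1 _ s.2)) g then (2 : ℝ) / csize (gen s.1 (hT1 _ s.2)) g else 0) ≤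
            2 / orderOf s.1 := by
        intro t _
        split_ifs with h
        · have h2 : (orderOf s.1 : ℝ) ≤ csize (gen s.1 (hT1 _ s.2)) g := by
            exact_mod_cast gen_size _ _ g
          exact div_le_div_of_nonneg_left (by norm_num) hpos h2
        · positivity
      refine le_trans (sum_le_sum h3) (le_of_eq ?_)
      rw [sum_const, card_univ, Fintype.card_fin, nsmul_eq_mul]
      ring) G f (by
      intro u j
      obtain ⟨s, rfl⟩ : ∃ s, j = f u * s := ⟨(f u)⁻¹ * j, by group⟩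
      refine (hβ u s).trans ?_
      by_cases hs : β s = 0
      · rw [hs]; exact Nat.zero_le _
      · have key : ∀ t : T, (∀ x, (gen t.1 (hT1 _ t.2)).Adj x (x * s)) → β s = β t.1 →
            β s ≤ {i : κ | (gen i.1.1 (hT1 _ i.1.2)).Adj (f u) (f u * s)}.ncard := by
          intro t ht hst
          have h2 : (fun r : Fin (β t.1) => (⟨t, r⟩ : κ)) '' Set.univ ⊆
              {i : κ | (gen i.1.1 (hT1 _ i.1.2)).Adj (f u) (f u * s)} := by
            rintro _ ⟨r, _, rfl⟩
            exact ht (f u)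
          refine le_trans ?_ (Set.ncard_le_ncard h2 (Set.toFinite _))
          have hinj : Function.Injective (fun r : Fin (β t.1) => (⟨t, r⟩ : κ)) :=
            fun a b h => eq_of_heq (Sigma.mk.inj_iff.1 h).2
          rw [Set.ncard_image_of_injective _ hinj, Set.ncard_univ]
          simp [hst]
        rcases hT s (mem_filter.2 ⟨mem_univ _, hs⟩) with h2 | h2
        · exact key ⟨s, h2⟩ (fun x => Or.inl rfl) rfl
        · refine key ⟨s⁻¹, h2⟩ (fun x => Or.inr ?_) (hinv s).symm
          group)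
  rw [hcardκ] at h1
  have h2 : (∑ s, β s) / 2 = ∑ s ∈ T, β s := by omega
  rwa [h2]

theorem la_fib {V : Type} [Finite V] {G : SimpleGraph V} {N : ℕ} (h : Cov G (N + 1)) :
    la G ≤ N + 1 ∧ (Nonempty V → 0 < N → (∀ v, (G.neighborSet v).ncard = 2 * N) →
      la G = N + 1) := by
  refine ⟨la_le h, fun _ hN hreg => ?_⟩
  have h2 : (2 * N + 2) / 2 = N + 1 := by omega
  have h3 := la_eq_of_cov (r := 2 * N) (by omega) hreg (by rw [h2]; exact h)
  rw [h3, h2]

/-- The degrees of a direct product. -/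
theorem deg_direct {W Y : Type} [Finite W] [Finite Y] (X : SimpleGraph W) (H : SimpleGraph Y)
    (G : SimpleGraph (W × Y)) (hG : ∀ p q, G.Adj p q ↔ X.Adj p.1 q.1 ∧ H.Adj p.2 q.2) (p : W × Y) :
    (G.neighborSet p).ncard = (X.neighborSet p.1).ncard * (H.neighborSet p.2).ncard := by
  have : G.neighborSet p = X.neighborSet p.1 ×ˢ H.neighborSet p.2 := by
    ext q
    rw [Set.mem_prod]
    exact hG p q
  rw [this, Set.ncard_prod]

/-- Graphs whose vertices are labelled by the residues modulo a prime number. -/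
theorem cov_label_prime {V : Type} [Finite V] (p : ℕ) (hp : p.Prime) (h2 : p ≠ 2)
    (β : ZMod p → ℕ) (hneg : ∀ d, β (-d) = β d) (h0 : β 0 = 0)
    (G : SimpleGraph V) (f : V → ZMod p)
    (hβ : ∀ u d, {v | G.Adj u v ∧ f v = f u + d}.ncard ≤ β d)
    (hsum : haveI : NeZero p := ⟨hp.ne_zero⟩; ∑ d, β d ≤ p) :
    haveI : NeZero p := ⟨hp.ne_zero⟩
    Cov G ((∑ d, β d) / 2 + 1) := by
  have hpf : Fact p.Prime := ⟨hp⟩
  have hz : NeZero p := ⟨hp.ne_zero⟩
  have hord : ∀ s : Multiplicative (ZMod p), s ≠ 1 → orderOf s = p := by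
    intro s hs
    have h1 : orderOf s ∣ p := by
      have := orderOf_dvd_card (x := s)
      rwa [Fintype.card_multiplicative, ZMod.card] at this
    rcases (Nat.dvd_prime hp).1 h1 with h | h
    · exact absurd (orderOf_eq_one_iff.1 h) hs
    · exact h
  have e1 : (∑ s : Multiplicative (ZMod p), β (Multiplicative.toAdd s)) = ∑ d, β d :=
    Fintype.sum_equiv Multiplicative.toAdd _ _ (fun s => rfl)
  have h1 := cov_label (Γ := Multiplicative (ZMod p)) (fun s => β (Multiplicative.toAdd s))
    (fun s => hneg _) (by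
      intro s hs
      have hs1 : s = 1 := by
        by_contra h
        have h3 : orderOf s ∣ 2 := orderOf_dvd_of_pow_eq_one (by rw [pow_two]; exact hs)
        rw [hord s h] at h3
        exact h2 ((Nat.prime_dvd_prime_iff_eq hp Nat.prime_two).1 h3)
      rw [hs1]
      exact h0) (by
      have h3 : ∀ s ∈ (univ : Finset (Multiplicative (ZMod p))),
          ((β (Multiplicative.toAdd s) : ℕ) : ℝ) / orderOf s ≤
            (β (Multiplicative.toAdd s) : ℝ) / p := by
        intro s _
        by_cases hs : s = 1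
        · rw [hs]
          have : β (Multiplicative.toAdd (1 : Multiplicative (ZMod p))) = 0 := h0
          rw [this]; simp
        · rw [hord s hs]
      refine (sum_le_sum h3).trans ?_
      rw [← sum_div]
      have hp0 : (0 : ℝ) < p := by exact_mod_cast hp.pos
      rw [div_le_one hp0]
      have h4 : (∑ s : Multiplicative (ZMod p), β (Multiplicative.toAdd s)) ≤ p := by
        rw [e1]; exact hsum
      exact_mod_cast h4) G (fun v => Multiplicative.ofAdd (f v)) (by
      intro u s
      refine le_trans (le_of_eq ?_) (hβ u (Multiplicative.toAdd s))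
      congr 1)
  rw [e1] at h1
  exact h1

end Pool.Agent.Q98.LA
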