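import Pool.Agent.W111.LAR.Crit
import Pool.Agent.TH525.FRG.Quot

set_option autoImplicit false

/-!
# Linear forests with multiplicities

A family of graphs `H i` of maximum degree two on `W`, possibly with repetitions, whose cyclic
components are not too short.  One more linear forest suffices to cover every edge as often as it
occurs in the family.
-/

namespace Pool.Agent.Q98.LA

open Finset SimpleGraph H931R3.LA Pool.Agent.W111.LAR

section sel

variable {V E ι : Type} [Fintype V] [DecidableEq V] [Fintype E] [DecidableEq E]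
  [Fintype ι] [DecidableEq ι]

/-- The selection of `W111.LAR.selection`, which moreover never selects two parallel edges. -/
theorem selection_multi (a b : E → V) (hab : ∀ e, a e ≠ b e) (κ : E → ι) (x : E → ℝ)
    (h0 : ∀ e, 0 ≤ x e) (hc : ∀ i, ∑ e ∈ univ.filter (fun e => κ e = i), x e = 1)
    (hv : ∀ v, ∑ e ∈ star a b univ v, x e ≤ 1) :
    ∃ s : ι → E, (∀ i, κ (s i) = i) ∧ H931R3.LA.IsLF (selGraph a b s) ∧
      ∀ i j, s(a (s i), b (s i)) = s(a (s j), b (s j)) → i = j := by
  classical
  obtain ⟨M, hM1, hM2, hM3⟩ := exists_selection a b hab κ _ univ ∅ rfl (by simp) ⟨x, h0, by simp,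
    hc, fun v _ => hv v, by
      intro U hU hcl
      obtain ⟨v, hv⟩ := hU
      exact absurd (hcl.1 hv) (by simp)⟩
  have hs : ∀ i, ∃ e, M.filter (fun e => κ e = i) = {e} := fun i => card_eq_one.1 (hM1 i)
  choose s hs using hs
  have sM : ∀ i, s i ∈ M ∧ κ (s i) = i := by
    intro i
    have : s i ∈ M.filter (fun e => κ e = i) := by rw [hs i]; simp
    exact mem_filter.1 this
  refine ⟨s, fun i => (sM i).2, ⟨?_, ?_⟩, ?_⟩
  · -- acyclic
    intro v c hcyc
    obtain ⟨w, hw, hcard⟩ := hM3 c.support.toFinset ⟨v, by simp⟩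
    have hwc : w ∈ c.support := by simpa using hw
    have h2 := hcyc.ncard_neighborSet_toSubgraph_eq_two hwc
    have hsub : c.toSubgraph.neighborSet w ⊆
        ((((star a b M w).filter (fun e => a e ∈ c.support.toFinset ∧
          b e ∈ c.support.toFinset)).image (fun e => if a e = w then b e else a e) :
          Finset V) : Set V) := by
      intro w' hw'
      have hadj : c.toSubgraph.Adj w w' := hw'
      have hw's : w' ∈ c.support := by
        have := hadj.snd_mem
        rwa [SimpleGraph.Walk.mem_verts_toSubgraph] at this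
      obtain ⟨hne, i, hi⟩ := hadj.adj_sub
      rw [Finset.mem_coe, mem_image]
      refine ⟨s i, ?_, ?_⟩
      · rw [mem_filter]
        refine ⟨mem_filter.2 ⟨(sM i).1, ?_⟩, ?_, ?_⟩
        · rcases hi with ⟨h1, h2⟩ | ⟨h1, h2⟩
          · exact Or.inl h1
          · exact Or.inr h2
        · rcases hi with ⟨h1, h2⟩ | ⟨h1, h2⟩
          · rw [h1]; simpa using hwc
          · rw [h1]; simpa using hw's
        · rcases hi with ⟨h1, h2⟩ | ⟨h1, h2⟩
          · rw [h2]; simpa using hw's
          · rw [h2]; simpa using hwc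
      · rcases hi with ⟨h1, h2⟩ | ⟨h1, h2⟩
        · rw [if_pos h1, h2]
        · have : a (s i) ≠ w := by rw [h1]; exact hne.symm
          rw [if_neg this, h1]
    have h3 := Set.ncard_le_ncard hsub (Finset.finite_toSet _)
    rw [Set.ncard_coe_finset, h2] at h3
    have h4 := card_image_le (s := (star a b M w).filter (fun e => a e ∈ c.support.toFinset ∧
          b e ∈ c.support.toFinset)) (f := fun e => if a e = w then b e else a e)
    omega
  · intro w
    have hsub : (selGraph a b s).neighborSet w ⊆
        (((star a b M w).image (fun e => if a e = w then b e else a e) : Finset V) : Set V) := by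
      intro w' hw'
      obtain ⟨hne, i, hi⟩ := hw'
      rw [Finset.mem_coe, mem_image]
      refine ⟨s i, ?_, ?_⟩
      · refine mem_filter.2 ⟨(sM i).1, ?_⟩
        rcases hi with ⟨h1, h2⟩ | ⟨h1, h2⟩
        · exact Or.inl h1
        · exact Or.inr h2
      · rcases hi with ⟨h1, h2⟩ | ⟨h1, h2⟩
        · rw [if_pos h1, h2]
        · have : a (s i) ≠ w := by rw [h1]; exact hne.symm
          rw [if_neg this, h1]
    have h3 := Set.ncard_le_ncard hsub (Finset.finite_toSet _)
    rw [Set.ncard_coe_finset] at h3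
    exact h3.trans (card_image_le.trans (hM2 w))
  · -- no parallel edges
    intro i j hij
    by_contra hne
    have hsne : s i ≠ s j := by
      intro h
      apply hne
      rw [← (sM i).2, ← (sM j).2, h]
    obtain ⟨w, hw, hcard⟩ := hM3 {a (s i), b (s i)} ⟨a (s i), by simp⟩
    have hmem : ∀ e ∈ M, s(a e, b e) = s(a (s i), b (s i)) →
        e ∈ (star a b M w).filter (fun e => a e ∈ ({a (s i), b (s i)} : Finset V) ∧
          b e ∈ ({a (s i), b (s i)} : Finset V)) := by
      intro e he h
      rw [mem_insert, mem_singleton] at hw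
      rw [mem_filter]
      rcases Sym2.eq_iff.1 h with ⟨h1, h2⟩ | ⟨h1, h2⟩
      · refine ⟨mem_filter.2 ⟨he, ?_⟩, by rw [h1]; simp, by rw [h2]; simp⟩
        rw [h1, h2]
        tauto
      · refine ⟨mem_filter.2 ⟨he, ?_⟩, by rw [h1]; simp, by rw [h2]; simp⟩
        rw [h1, h2]
        tauto
    have h1 := hmem (s i) (sM i).1 rfl
    have h2 := hmem (s j) (sM j).1 hij.symm
    have h3 := card_le_one.1 hcard _ h1 _ h2
    exact hsne h3

end sel

/-- `k` linear forests which cover the pair `u, v` at least `μ u v` times. -/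
def MCov {W : Type} (μ : W → W → ℕ) (k : ℕ) : Prop :=
  ∃ F : Fin k → SimpleGraph W, (∀ c, IsLF (F c)) ∧
    ∀ u j, μ u j ≤ {c | (F c).Adj u j}.ncard

theorem mcov_of_type {W τ : Type} [Finite τ] {μ : W → W → ℕ} (F : τ → SimpleGraph W)
    (hF : ∀ t, IsLF (F t)) (hμ : ∀ u j, μ u j ≤ {c | (F c).Adj u j}.ncard) :
    MCov μ (Nat.card τ) := by
  refine ⟨fun i => F ((Finite.equivFin τ).symm i), fun i => hF _, fun u j => ?_⟩
  refine (hμ u j).trans (le_of_eq ?_)
  refine Set.ncard_congr (fun c _ => Finite.equivFin τ c) ?_ ?_ ?_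
  · intro c hc
    simpa using hc
  · intro c c' _ _ h
    exact (Finite.equivFin τ).injective h
  · intro c hc
    exact ⟨(Finite.equivFin τ).symm c, hc, by simp⟩

theorem MCov.cov {V W : Type} [Finite V] [Finite W] {μ : W → W → ℕ} {k : ℕ} (h : MCov μ k)
    (G : SimpleGraph V) (f : V → W) (hG : ∀ u j, {v | G.Adj u v ∧ f v = j}.ncard ≤ μ (f u) j) :
    Cov G k := by
  obtain ⟨F, hF, hμ⟩ := h
  exact Pool.Agent.TH525.FRG.cov_quot G k F hF f (fun u j => (hG u j).trans (hμ _ _))

theorem MCov.anti {W : Type} {μ ν : W → W → ℕ} {k : ℕ} (h : MCov μ k) (hν : ∀ u v, ν u v ≤ μ u v) :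
    MCov ν k := by
  obtain ⟨F, hF, hμ⟩ := h
  exact ⟨F, hF, fun u j => (hν u j).trans (hμ u j)⟩

theorem MCov.add {W : Type} {μ ν : W → W → ℕ} {k l : ℕ} (h : MCov μ k) (h' : MCov ν l) :
    MCov (fun u v => μ u v + ν u v) (k + l) := by
  obtain ⟨F, hF, hμ⟩ := h
  obtain ⟨F', hF', hν⟩ := h'
  have h1 := mcov_of_type (μ := fun u v => μ u v + ν u v) (Sum.elim F F' : Fin k ⊕ Fin l → _)
    (by rintro (t | t); exacts [hF t, hF' t]) (by
      intro u j
      have e : {c | ((Sum.elim F F' : Fin k ⊕ Fin l → SimpleGraph W) c).Adj u j} =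
          Sum.inl '' {c | (F c).Adj u j} ∪ Sum.inr '' {c | (F' c).Adj u j} := by
        ext (c | c) <;> simp
      rw [e, Set.ncard_union_eq (by
        rw [Set.disjoint_left]
        rintro _ ⟨c, _, rfl⟩ ⟨c', _, h⟩
        exact absurd h (by simp)) (Set.toFinite _) (Set.toFinite _),
        Set.ncard_image_of_injective _ Sum.inl_injective,
        Set.ncard_image_of_injective _ Sum.inr_injective]
      exact Nat.add_le_add (hμ u j) (hν u j))
  rwa [Nat.card_sum, Nat.card_fin, Nat.card_fin] at h1


open Classical in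
theorem mcov_load {W κ : Type} [Finite W] [Fintype κ] (H : κ → SimpleGraph W)
    (hdeg : ∀ i v, ((H i).neighborSet v).ncard ≤ 2)
    (hload : ∀ v, ∑ i, (if Cyc (H i) v then (2 : ℝ) / csize (H i) v else 0) ≤ 1) :
    MCov (fun u j => {i | (H i).Adj u j}.ncard) (Fintype.card κ + 1) := by
  have := Fintype.ofFinite W
  have : Fintype (EE H) := Fintype.ofFinite (EE H)
  have : Fintype (II H) := Fintype.ofFinite (II H)
  let x : EE H → ℝ := fun e => 1 / csize (H e.1.1) (aa e)
  have hclass : ∀ c : II H, ∑ e ∈ univ.filter (fun e => cl e = c), x e = 1 := by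
    intro c
    have hx : ∀ e ∈ univ.filter (fun e : EE H => cl e = c), x e = 1 / csize (H c.1.1) c.1.2 := by
      intro e he
      obtain ⟨h1, h2⟩ := (cl_iff e c).1 (mem_filter.1 he).2
      show (1 : ℝ) / csize (H e.1.1) (aa e) = _
      rw [h1, csize_eq h2]
    rw [sum_congr rfl hx, sum_const, nsmul_eq_mul, class_card]
    have hpos : (0 : ℝ) < csize (H c.1.1) c.1.2 := by exact_mod_cast csize_pos _ _
    field_simp
  have hvert : ∀ v, ∑ e ∈ star aa bb univ v, x e ≤ 1 := by
    intro v
    refine le_trans (le_of_eq ?_) (hload v)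
    rw [← sum_fiberwise (star aa bb univ v) (fun e : EE H => e.1.1) x]
    refine sum_congr rfl fun i _ => ?_
    by_cases hcyc : Cyc (H i) v
    · rw [if_pos hcyc]
      have hx : ∀ e ∈ (star aa bb (univ : Finset (EE H)) v).filter (fun e => e.1.1 = i), x e =
          1 / csize (H i) v := by
        intro e he
        obtain ⟨he1, he2⟩ := mem_filter.1 he
        obtain ⟨_, hinc⟩ := mem_filter.1 he1
        show (1 : ℝ) / csize (H e.1.1) (aa e) = _
        rw [← csize_eq (ends_reach e v hinc), he2]
      rw [sum_congr rfl hx, sum_const, cnt i v hcyc, nsmul_eq_mul]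
      push_cast
      ring
    · rw [if_neg hcyc, cnt0 i v hcyc, sum_empty]
  have hx0 : ∀ e, 0 ≤ x e := fun e => by
    show (0 : ℝ) ≤ 1 / csize (H e.1.1) (aa e)
    positivity
  obtain ⟨s, hs, hLF, hinj⟩ := selection_multi aa bb ends_ne cl x hx0 hclass hvert
  let F : Option κ → SimpleGraph W := fun t => match t with
    | none => selGraph aa bb s
    | some i => (H i).deleteEdges {d | ∃ c : II H, c.1.1 = i ∧ d = (s c).1.2}
  have hcard : Nat.card (Option κ) = Fintype.card κ + 1 := by
    rw [Nat.card_eq_fintype_card, Fintype.card_option]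
  rw [← hcard]
  have hsi : ∀ c : II H, (s c).1.1 = c.1.1 := fun c => ((cl_iff (s c) c).1 (hs c)).1
  refine mcov_of_type F ?_ ?_
  · intro t
    cases t with
    | none => exact hLF
    | some i =>
      have hle : F (some i) ≤ H i := deleteEdges_le _
      refine ⟨?_, fun v => le_trans (Set.ncard_le_ncard (fun u hu => hle hu) (Set.toFinite _))
        (hdeg i v)⟩
      intro v c hc
      have hcl' := closed_cycle hle (hdeg i) hc
      have hcyc : Cyc (H i) v := fun w hw => (hcl' w hw).2.1
      let c0 : II H := ⟨(i, rep (H i) v), hcyc.trans (rep_reach _ _).symm, rep_eq (rep_reach _ _)⟩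
      have h1 := (cl_iff (s c0) c0).1 (hs c0)
      have h2 : (H i).Reachable v (aa (s c0)) := (rep_reach (H i) v).symm.trans h1.2.symm
      have h3 : (H i).Adj (aa (s c0)) (bb (s c0)) := by
        have := adj_ends (s c0)
        rw [hsi c0] at this
        exact this
      have h4 := (hcl' _ h2).2.2 _ h3
      have h5 : (F (some i)).Adj (aa (s c0)) (bb (s c0)) ↔ (H i).Adj (aa (s c0)) (bb (s c0)) ∧
          s(aa (s c0), bb (s c0)) ∉ {d | ∃ c : II H, c.1.1 = i ∧ d = (s c).1.2} := deleteEdges_adj
      exact (h5.1 h4).2 ⟨c0, rfl, mk_ends _⟩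
  · intro u v
    let g : κ → Option κ := fun i => if ∃ c : II H, c.1.1 = i ∧ s(u, v) = (s c).1.2 then none
      else some i
    have hg : Set.InjOn g {i | (H i).Adj u v} := by
      intro i _ i' _ h
      by_cases h1 : ∃ c : II H, c.1.1 = i ∧ s(u, v) = (s c).1.2
      · by_cases h2 : ∃ c : II H, c.1.1 = i' ∧ s(u, v) = (s c).1.2
        · obtain ⟨c, hc1, hc2⟩ := h1
          obtain ⟨c', hc1', hc2'⟩ := h2
          have : c = c' := hinj c c' (by rw [mk_ends, mk_ends, ← hc2, ← hc2'])
          rw [← hc1, ← hc1', this]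
        · simp only [g, if_pos h1, if_neg h2] at h
          exact absurd h (by simp)
      · by_cases h2 : ∃ c : II H, c.1.1 = i' ∧ s(u, v) = (s c).1.2
        · simp only [g, if_neg h1, if_pos h2] at h
          exact absurd h (by simp)
        · simp only [g, if_neg h1, if_neg h2, Option.some.injEq] at h
          exact h
    rw [← hg.ncard_image]
    refine Set.ncard_le_ncard ?_ (Set.toFinite _)
    rintro _ ⟨i, hi, rfl⟩
    by_cases h1 : ∃ c : II H, c.1.1 = i ∧ s(u, v) = (s c).1.2
    · simp only [g, if_pos h1, Set.mem_setOf_eq]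
      obtain ⟨c, hc1, hc2⟩ := h1
      rw [← mk_ends] at hc2
      refine ⟨hi.ne, c, ?_⟩
      rcases Sym2.eq_iff.1 hc2 with ⟨h1, h2⟩ | ⟨h1, h2⟩
      · exact Or.inl ⟨h1.symm, h2.symm⟩
      · exact Or.inr ⟨h2.symm, h1.symm⟩
    · simp only [g, if_neg h1, Set.mem_setOf_eq]
      exact deleteEdges_adj.2 ⟨hi, h1⟩

/-- Families in which all cyclic components have at least `2 m` vertices. -/
theorem mcov_group {W κ : Type} [Finite W] (H : κ → SimpleGraph W) (m : ℕ) (hm : 1 ≤ m)
    (hdeg : ∀ i v, ((H i).neighborSet v).ncard ≤ 2)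
    (hsz : ∀ i v, Cyc (H i) v → 2 * m ≤ csize (H i) v) (n : ℕ) :
    ∀ S : Finset κ, S.card = n →
      MCov (fun u j => {i | i ∈ S ∧ (H i).Adj u j}.ncard) (n + (n + m - 1) / m) := by
  classical
  induction n using Nat.strong_induction_on with
  | _ n ih =>
    intro S hS
    have base : ∀ T : Finset κ, T ⊆ S → T.card ≤ m →
        MCov (fun u j => {i | i ∈ T ∧ (H i).Adj u j}.ncard) (T.card + 1) := by
      intro T _ hT
      have h1 := mcov_load (fun i : T => H i.1) (fun i v => hdeg i.1 v) (by
        intro v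
        have h2 : ∀ i ∈ (univ : Finset T), (if Cyc (H i.1) v then (2 : ℝ) / csize (H i.1) v else 0) ≤
            1 / m := by
          intro i _
          split_ifs with hcyc
          · have h3 : (2 * m : ℝ) ≤ csize (H i.1) v := by exact_mod_cast hsz i.1 v hcyc
            have hm' : (0 : ℝ) < m := by exact_mod_cast hm
            rw [div_le_div_iff₀ (by linarith) hm']
            linarith
          · positivity
        refine le_trans (sum_le_sum h2) ?_
        rw [sum_const, card_univ, Fintype.card_coe, nsmul_eq_mul]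
        have hm' : (0 : ℝ) < m := by exact_mod_cast hm
        rw [mul_one_div, div_le_one hm']
        exact_mod_cast hT)
      rw [Fintype.card_coe] at h1
      refine h1.anti fun u v => le_of_eq ?_
      refine (Set.ncard_congr (fun (i : T) _ => i.1) ?_ ?_ ?_).symm
      · intro i hi
        exact ⟨i.2, hi⟩
      · intro i j _ _ h
        exact Subtype.ext h
      · rintro i ⟨hi, hi2⟩
        exact ⟨⟨i, hi⟩, hi2, rfl⟩
    rcases Nat.eq_zero_or_pos n with h0 | h0
    · subst h0
      have hS0 : S = ∅ := card_eq_zero.1 hS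
      subst hS0
      refine ⟨fun _ => ⊥, fun _ => isLF_bot, fun u j => ?_⟩
      simp
    · by_cases hnm : n ≤ m
      · have h1 := base S subset_rfl (by omega)
        have h2 : (n + m - 1) / m = 1 := by
          rw [Nat.div_eq_of_lt_le] <;> omega
        rw [h2]
        rwa [hS] at h1
      · push Not at hnm
        obtain ⟨T, hTS, hT⟩ := exists_subset_card_eq (s := S) (n := m) (by omega)
        have h1 := base T hTS hT.le
        have h2 := ih (n - m) (by omega) (S \ T) (by rw [card_sdiff_of_subset hTS, hS, hT])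
        have h3 := h1.add h2
        have h4 : (n + m - 1) / m = (n - m + m - 1) / m + 1 := by
          have : n + m - 1 = (n - m + m - 1) + m := by omega
          rw [this, Nat.add_div_right _ (by omega)]
        have h5 : T.card + 1 + (n - m + (n - m + m - 1) / m) = n + (n + m - 1) / m := by
          rw [h4]; omega
        rw [h5] at h3
        refine h3.anti fun u v => ?_
        refine le_trans (Set.ncard_le_ncard ?_ ?_) (Set.ncard_union_le _ _)
        · rintro i ⟨hi, hi2⟩
          by_cases hiT : i ∈ T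
          · exact Or.inl ⟨hiT, hi2⟩
          · exact Or.inr ⟨mem_sdiff.2 ⟨hi, hiT⟩, hi2⟩
        · refine Set.Finite.union ?_ ?_
          · exact T.finite_toSet.subset fun i hi => hi.1
          · exact (S \ T).finite_toSet.subset fun i hi => hi.1

end Pool.Agent.Q98.LA
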